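import Pool.Agent.W734.TWB.Stms

/-!
# Gross-Pitaevskii limit with two- and three-body interactions (S15753): the lower bound
-/

set_option autoImplicit false

noncomputable section

namespace Pool.Agent.W381.TWB

open MeasureTheory Set Filter Metric Pool.Agent.W734.TWB

/-! ### integrability -/

/-- locally bounded times continuous with compact support -/
theorem int_mul {X : Type*} [NormedAddCommGroup X] [MeasurableSpace X] [BorelSpace X]
    [SecondCountableTopology X] {μ : Measure X} [IsFiniteMeasureOnCompacts μ]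
    {h g : X → ℝ} (hm : Measurable h) (hb : ∃ M : ℝ, ∀ x ∈ tsupport g, |h x| ≤ M)
    (gc : Continuous g) (gs : HasCompactSupport g) : Integrable (fun x => h x * g x) μ := by
  obtain ⟨M, hM⟩ := hb
  have hK : MeasurableSet (tsupport g) := (isClosed_tsupport g).measurableSet
  have e : (fun x => h x * g x) = fun x => (tsupport g).indicator h x * g x := by
    funext x
    by_cases hx : x ∈ tsupport g
    · rw [indicator_of_mem hx]
    · rw [image_eq_zero_of_notMem_tsupport hx, mul_zero, mul_zero]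
  rw [e]
  have hgi : Integrable g μ := gc.integrable_of_hasCompactSupport gs
  refine hgi.bdd_mul (c := max M 0) (hm.indicator hK).aestronglyMeasurable ?_
  refine Filter.Eventually.of_forall fun x => ?_
  by_cases hx : x ∈ tsupport g
  · rw [indicator_of_mem hx, Real.norm_eq_abs]
    exact (hM x hx).trans (le_max_left _ _)
  · rw [indicator_of_notMem hx, norm_zero]
    exact le_max_right _ _

variable {N : ℕ}

theorem gsq_cont {F : Cfg N → ℂ} (hF : ContDiff ℝ 1 F) (i : Fin N) : Continuous (gsq F i) := by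
  unfold gsq
  refine continuous_finsetSum _ fun k _ => ?_
  have h1 : Continuous fun x => fderiv ℝ F x := hF.continuous_fderiv one_ne_zero
  exact ((h1.clm_apply continuous_const).norm).pow 2

theorem kin_cont {F : Cfg N → ℂ} (hF : ContDiff ℝ 1 F) : Continuous (kin F) := by
  unfold kin
  exact continuous_finsetSum _ fun i _ => gsq_cont hF i

theorem kin_supp {F : Cfg N → ℂ} (hF : HasCompactSupport F) : HasCompactSupport (kin F) := by
  refine (hF.fderiv (𝕜 := ℝ)).mono fun x hx => ?_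
  rw [Function.mem_support] at hx ⊢
  intro h0
  apply hx
  unfold kin gsq
  rw [h0]
  simp

theorem kin_int {F : Cfg N → ℂ} (hF : ContDiff ℝ 1 F) (hs : HasCompactSupport F) :
    Integrable (kin F) := (kin_cont hF).integrable_of_hasCompactSupport (kin_supp hs)

theorem sqn_cont {F : Cfg N → ℂ} (hF : Continuous F) : Continuous fun x => ‖F x‖ ^ 2 :=
  hF.norm.pow 2

theorem sqn_supp {F : Cfg N → ℂ} (hs : HasCompactSupport F) :
    HasCompactSupport fun x => ‖F x‖ ^ 2 := by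
  refine hs.mono fun x hx => ?_
  rw [Function.mem_support] at hx ⊢
  intro h0
  apply hx
  simp [h0]

/-- a locally bounded one-body potential -/
theorem one_body {q : E3 → ℝ} (hq : Measurable q)
    (hl : ∀ K : Set E3, IsCompact K → ∃ M : ℝ, ∀ x ∈ K, |q x| ≤ M) {F : Cfg N → ℂ}
    (hF : Continuous F) (hs : HasCompactSupport F) :
    Integrable (fun x : Cfg N => (∑ i, q (x i)) * ‖F x‖ ^ 2) := by
  refine int_mul ?_ ?_ (sqn_cont hF) (sqn_supp hs)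
  · exact Finset.measurable_sum _ fun i _ => hq.comp (measurable_pi_apply i)
  · have hK : IsCompact (tsupport fun x : Cfg N => ‖F x‖ ^ 2) := sqn_supp hs
    have h1 : ∀ i : Fin N, ∃ M : ℝ, ∀ x ∈ tsupport (fun x : Cfg N => ‖F x‖ ^ 2), |q (x i)| ≤ M := by
      intro i
      obtain ⟨M, hM⟩ := hl _ (hK.image (continuous_apply i))
      exact ⟨M, fun x hx => hM _ ⟨x, hx, rfl⟩⟩
    choose M hM using h1
    refine ⟨∑ i, M i, fun x hx => ?_⟩
    exact (Finset.abs_sum_le_sum_abs _ _).trans (Finset.sum_le_sum fun i _ => hM i x hx)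

theorem pairS_meas {w : E3 → ℝ} (hw : Measurable w) : Measurable (pairS (N := N) w) := by
  unfold pairS
  refine Finset.measurable_sum _ fun i _ => Finset.measurable_sum _ fun j _ => ?_
  exact hw.comp ((measurable_pi_apply i).sub (measurable_pi_apply j))

theorem tripS_meas {v : E3 × E3 → ℝ} (hv : Measurable v) : Measurable (tripS (N := N) v) := by
  unfold tripS
  refine Finset.measurable_sum _ fun i _ => Finset.measurable_sum _ fun j _ =>
    Finset.measurable_sum _ fun k _ => ?_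
  exact hv.comp (((measurable_pi_apply i).sub (measurable_pi_apply j)).prodMk
    ((measurable_pi_apply i).sub (measurable_pi_apply k)))

theorem pairS_bdd {w : E3 → ℝ} {M : ℝ} (hw : ∀ x, |w x| ≤ M) :
    ∃ B : ℝ, ∀ x : Cfg N, |pairS w x| ≤ B := by
  refine ⟨∑ i : Fin N, ∑ j ∈ Finset.Ioi i, M, fun x => ?_⟩
  unfold pairS
  refine (Finset.abs_sum_le_sum_abs _ _).trans (Finset.sum_le_sum fun i _ => ?_)
  exact (Finset.abs_sum_le_sum_abs _ _).trans (Finset.sum_le_sum fun j _ => hw _)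

theorem tripS_bdd {v : E3 × E3 → ℝ} {M : ℝ} (hv : ∀ p, |v p| ≤ M) :
    ∃ B : ℝ, ∀ x : Cfg N, |tripS v x| ≤ B := by
  refine ⟨∑ i : Fin N, ∑ j ∈ Finset.Ioi i, ∑ k ∈ Finset.Ioi j, M, fun x => ?_⟩
  unfold tripS
  refine (Finset.abs_sum_le_sum_abs _ _).trans (Finset.sum_le_sum fun i _ => ?_)
  refine (Finset.abs_sum_le_sum_abs _ _).trans (Finset.sum_le_sum fun j _ => ?_)
  exact (Finset.abs_sum_le_sum_abs _ _).trans (Finset.sum_le_sum fun k _ => hv _)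

theorem Wn_meas {W : E3 → ℝ} (hW : Measurable W) : Measurable (Wn N W) := by
  unfold Wn
  exact (hW.comp (measurable_const_smul _)).const_mul _

theorem Vn_meas {V : E3 × E3 → ℝ} (hV : Measurable V) : Measurable (Vn N V) := by
  unfold Vn
  exact (hV.comp (measurable_const_smul _)).const_mul _

theorem Wn_bdd {W : E3 → ℝ} (hW : AdmW W) : ∃ M : ℝ, ∀ x, |Wn N W x| ≤ M := by
  obtain ⟨M, hM⟩ := hW.bdd
  refine ⟨(N : ℝ) ^ 2 * M, fun x => ?_⟩
  unfold Wn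
  rw [abs_mul, abs_of_nonneg (by positivity), abs_of_nonneg (hW.nonneg _)]
  exact mul_le_mul_of_nonneg_left (hM _) (by positivity)

theorem Vn_bdd {V : E3 × E3 → ℝ} (hV : AdmV V) : ∃ M : ℝ, ∀ x, |Vn N V x| ≤ M := by
  obtain ⟨M, hM⟩ := hV.bdd
  refine ⟨(N : ℝ) * M, fun x => ?_⟩
  unfold Vn
  rw [abs_mul, abs_of_nonneg (by positivity), abs_of_nonneg (hV.nonneg _)]
  exact mul_le_mul_of_nonneg_left (hM _) (by positivity)

theorem pair_int {W : E3 → ℝ} (hW : AdmW W) {F : Cfg N → ℂ} (hF : Continuous F)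
    (hs : HasCompactSupport F) : Integrable (fun x : Cfg N => pairS (Wn N W) x * ‖F x‖ ^ 2) := by
  obtain ⟨M, hM⟩ := Wn_bdd (N := N) hW
  obtain ⟨B, hB⟩ := pairS_bdd (N := N) hM
  exact int_mul (pairS_meas (Wn_meas hW.meas)) ⟨B, fun x _ => hB x⟩ (sqn_cont hF) (sqn_supp hs)

theorem trip_int {V : E3 × E3 → ℝ} (hV : AdmV V) {F : Cfg N → ℂ} (hF : Continuous F)
    (hs : HasCompactSupport F) : Integrable (fun x : Cfg N => tripS (Vn N V) x * ‖F x‖ ^ 2) := by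
  obtain ⟨M, hM⟩ := Vn_bdd (N := N) hV
  obtain ⟨B, hB⟩ := tripS_bdd (N := N) hM
  exact int_mul (tripS_meas (Vn_meas hV.meas)) ⟨B, fun x _ => hB x⟩ (sqn_cont hF) (sqn_supp hs)

/-! ### signs -/

theorem b1_nonneg {W : E3 → ℝ} (hW : AdmW W) : 0 ≤ b1 W := by
  unfold b1
  refine Real.sInf_nonneg ?_
  rintro _ ⟨φ, -, -, rfl⟩
  refine integral_nonneg fun y => ?_
  have h1 : 0 ≤ g3 φ y := Finset.sum_nonneg fun k _ => by positivity
  have h2 := hW.nonneg y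
  show 0 ≤ 2 * g3 φ y + W y * ‖1 - φ y‖ ^ 2
  positivity

theorem b2_nonneg {V : E3 × E3 → ℝ} (hV : AdmV V) : 0 ≤ b2 V := by
  unfold b2
  refine Real.sInf_nonneg ?_
  rintro _ ⟨φ, -, -, rfl⟩
  refine integral_nonneg fun p => ?_
  have h1 : 0 ≤ g6 φ p := Finset.sum_nonneg fun k _ => by positivity
  have h2 := hV.nonneg p
  show 0 ≤ g6 φ p + V p * ‖1 - φ p‖ ^ 2
  positivity

/-! ### a competitor -/

theorem exists_orb : ∃ u : E3 → ℂ, Orb u := by
  let f : ContDiffBump (0 : E3) := ⟨1, 2, by norm_num, by norm_num⟩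
  have hc : 0 < ∫ x, (f x) ^ 2 := by
    refine Continuous.integral_pos_of_hasCompactSupport_nonneg_nonzero
      (f.continuous.pow 2) ?_ (fun x => by positivity) (x := 0) ?_
    · refine f.hasCompactSupport.mono fun x hx => ?_
      rw [Function.mem_support] at hx ⊢
      intro h0
      apply hx
      simp [h0]
    · have h1 : f (0 : E3) = 1 := f.one_of_mem_closedBall (mem_closedBall_self f.rIn_pos.le)
      rw [h1]
      norm_num
  set c := ∫ x, (f x) ^ 2 with hcdef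
  refine ⟨fun x => (((Real.sqrt c)⁻¹ * f x : ℝ) : ℂ), ?_, ?_, ?_⟩
  · exact Complex.ofRealCLM.contDiff.comp (contDiff_const.mul f.contDiff)
  · refine f.hasCompactSupport.mono fun x hx => ?_
    rw [Function.mem_support] at hx ⊢
    intro h0
    apply hx
    simp [h0]
  · have h1 : ∀ x, ‖(((Real.sqrt c)⁻¹ * f x : ℝ) : ℂ)‖ ^ 2 = c⁻¹ * (f x) ^ 2 := by
      intro x
      rw [Complex.norm_real, Real.norm_eq_abs, sq_abs, mul_pow, inv_pow, Real.sq_sqrt hc.le]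
    simp only [h1]
    rw [integral_const_mul, ← hcdef]
    exact inv_mul_cancel₀ hc.ne'

theorem exists_comp (N : ℕ) : ∃ ψ : Cfg N → ℂ, ContDiff ℝ ((⊤ : ℕ∞) : WithTop ℕ∞) ψ ∧
    HasCompactSupport ψ ∧ (∀ σ : Equiv.Perm (Fin N), ∀ x, ψ (x ∘ σ) = ψ x) ∧
    ∫ x, ‖ψ x‖ ^ 2 = 1 := by
  obtain ⟨u, hu⟩ := exists_orb
  refine ⟨fun x => ∏ i, u (x i), ?_, ?_, ?_, ?_⟩
  · exact contDiff_prod fun i _ => hu.diff.comp (contDiff_apply ℝ E3 i)
  · refine HasCompactSupport.intro (K := Set.univ.pi fun _ => tsupport u)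
      (isCompact_univ_pi fun _ => hu.supp) fun x hx => ?_
    rw [Set.mem_univ_pi] at hx
    push Not at hx
    obtain ⟨i, hi⟩ := hx
    exact Finset.prod_eq_zero (Finset.mem_univ i) (image_eq_zero_of_notMem_tsupport hi)
  · intro σ x
    exact Equiv.prod_comp σ fun i => u (x i)
  · have h1 : ∀ x : Cfg N, ‖∏ i, u (x i)‖ ^ 2 = ∏ i, ‖u (x i)‖ ^ 2 := by
      intro x
      rw [norm_prod, Finset.prod_pow]
    simp only [h1]
    have h2 := MeasureTheory.integral_fintype_prod_volume_eq_prod (𝕜 := ℝ) (ι := Fin N)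
      (E := fun _ => E3) (fun _ z => ‖u z‖ ^ 2)
    rw [h2]
    simp [hu.norm]

/-! ### the quotient by the product function -/

theorem wt_eq (φ : E3 → ℝ) (x : Cfg N) : wt φ x = (∏ i, φ (x i)) ^ 2 := by
  unfold wt
  rw [Finset.prod_pow]

theorem wt_cont {φ : E3 → ℝ} (hφ : Continuous φ) : Continuous (wt (m := N) φ) := by
  unfold wt
  exact continuous_finsetProd _ fun i _ => (hφ.comp (continuous_apply i)).pow 2

/-- the quotient -/
def quo (φ : E3 → ℝ) (ψ : Cfg N → ℂ) : Cfg N → ℂ := fun y => ψ y / (((∏ i, φ (y i)) : ℝ) : ℂ)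

theorem prod_pos' {φ : E3 → ℝ} (hpos : ∀ x, 0 < φ x) (x : Cfg N) : 0 < ∏ i, φ (x i) :=
  Finset.prod_pos fun i _ => hpos (x i)

theorem quo_diff {φ : E3 → ℝ} (hφ : ContDiff ℝ 1 φ) (hpos : ∀ x, 0 < φ x) {ψ : Cfg N → ℂ}
    (hψ : ContDiff ℝ 1 ψ) : ContDiff ℝ 1 (quo φ ψ) := by
  unfold quo
  simp only [div_eq_mul_inv]
  have h1 : ContDiff ℝ 1 fun x : Cfg N => ∏ i, φ (x i) :=
    contDiff_prod fun i _ => hφ.comp (contDiff_apply ℝ E3 i)
  have h2 : ContDiff ℝ 1 fun x : Cfg N => (((∏ i, φ (x i)) : ℝ) : ℂ) :=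
    Complex.ofRealCLM.contDiff.comp h1
  exact hψ.mul (h2.inv fun x => Complex.ofReal_ne_zero.mpr (prod_pos' hpos x).ne')

theorem quo_supp {φ : E3 → ℝ} {ψ : Cfg N → ℂ} (hψ : HasCompactSupport ψ) :
    HasCompactSupport (quo φ ψ) := by
  refine hψ.mono fun x hx => ?_
  rw [Function.mem_support] at hx ⊢
  intro h0
  apply hx
  unfold quo
  rw [h0, zero_div]

theorem quo_norm {φ : E3 → ℝ} (hpos : ∀ x, 0 < φ x) (ψ : Cfg N → ℂ) (x : Cfg N) :
    wt φ x * ‖quo φ ψ x‖ ^ 2 = ‖ψ x‖ ^ 2 := by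
  have h1 := prod_pos' hpos x
  unfold quo
  rw [wt_eq, norm_div, Complex.norm_real, Real.norm_eq_abs, abs_of_pos h1, div_pow]
  field_simp

/-! ### the lower bound -/

theorem UU_cont {β γ : ℝ} {ρ : E3 → ℝ} (hρ : Continuous ρ) : Continuous fun x => UU β γ (ρ x) := by
  unfold UU
  fun_prop

theorem UU_supp {β γ : ℝ} {ρ : E3 → ℝ} (hρ : HasCompactSupport ρ) :
    HasCompactSupport fun x => UU β γ (ρ x) := by
  refine hρ.mono fun x hx => ?_
  rw [Function.mem_support] at hx ⊢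
  intro h0
  apply hx
  simp [UU, h0]

theorem UU_nonneg {β γ t : ℝ} (hβ : 0 ≤ β) (hγ : 0 ≤ γ) (ht : 0 ≤ t) : 0 ≤ UU β γ t := by
  unfold UU
  positivity

/-- the bound for one competitor -/
theorem step (hFACT : S_FACT) {Vext W : E3 → ℝ} {V : E3 × E3 → ℝ} (hE : AdmE Vext) (hW : AdmW W)
    (hV : AdmV V) {ρ : E3 → ℝ} (hρc : Continuous ρ) {Λ lam' I e' : ℝ}
    {φ : E3 → ℝ} (hφ : ContDiff ℝ 1 φ) (hpos : ∀ x, 0 < φ x)
    (hQ0 : ∀ x, 0 ≤ min (Vext x) Λ + UU (b1 W) (b2 V) (ρ x))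
    (hQb : ∃ M : ℝ, ∀ x, min (Vext x) Λ + UU (b1 W) (b2 V) (ρ x) ≤ M)
    (hS : SuperSol (fun x => min (Vext x) Λ + UU (b1 W) (b2 V) (ρ x)) lam' φ)
    {ψ : Cfg N → ℂ} (hψ : ContDiff ℝ 1 ψ) (hs : HasCompactSupport ψ)
    (h1 : ∫ x, ‖ψ x‖ ^ 2 = 1)
    (hcore : (∫ x, (∑ i, UU (b1 W) (b2 V) (ρ (x i))) * (wt φ x * ‖quo φ ψ x‖ ^ 2))
      - (N : ℝ) * (I + e') * (∫ x, wt φ x * ‖quo φ ψ x‖ ^ 2) ≤
      ∫ x, wt φ x * (kin (quo φ ψ) x + (pairS (Wn N W) x + tripS (Vn N V) x)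
        * ‖quo φ ψ x‖ ^ 2)) :
    (N : ℝ) * (lam' - (I + e')) ≤ enN N Vext W V ψ := by
  have hβ := b1_nonneg hW
  have hγ := b2_nonneg hV
  have hψc : Continuous ψ := hψ.continuous
  have hRc : Continuous fun x => UU (b1 W) (b2 V) (ρ x) := UU_cont hρc
  have hQm : Measurable fun x => min (Vext x) Λ + UU (b1 W) (b2 V) (ρ x) :=
    (hE.meas.min measurable_const).add hRc.measurable
  -- integrability
  have ia : Integrable (kin ψ) := kin_int hψ hs
  have ib : Integrable (fun x : Cfg N => (∑ i, Vext (x i)) * ‖ψ x‖ ^ 2) :=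
    one_body hE.meas hE.loc hψc hs
  have ic := pair_int (N := N) hW hψc hs
  have id' := trip_int (N := N) hV hψc hs
  have iq : Integrable (fun x : Cfg N => (∑ i, (min (Vext (x i)) Λ +
      UU (b1 W) (b2 V) (ρ (x i)))) * ‖ψ x‖ ^ 2) := by
    refine one_body (q := fun x => min (Vext x) Λ + UU (b1 W) (b2 V) (ρ x)) hQm ?_ hψc hs
    intro K _
    obtain ⟨M, hM⟩ := hQb
    exact ⟨M, fun x _ => by rw [abs_of_nonneg (hQ0 x)]; exact hM x⟩
  have ir : Integrable (fun x : Cfg N => (∑ i, UU (b1 W) (b2 V) (ρ (x i))) * ‖ψ x‖ ^ 2) := by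
    refine one_body (q := fun x => UU (b1 W) (b2 V) (ρ x)) hRc.measurable ?_ hψc hs
    intro K hK
    obtain ⟨M, hM⟩ := (hK.image (hRc.abs)).bddAbove
    exact ⟨M, fun x hx => hM ⟨x, hx, rfl⟩⟩
  have hF : ContDiff ℝ 1 (quo φ ψ) := quo_diff hφ hpos hψ
  have hFs : HasCompactSupport (quo φ ψ) := quo_supp hs
  have ik : Integrable (fun x : Cfg N => wt φ x * kin (quo φ ψ) x) :=
    ((wt_cont hφ.continuous).mul (kin_cont hF)).integrable_of_hasCompactSupport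
      ((kin_supp hFs).mul_left)
  -- the factorisation
  have hfact := hFACT _ hQm hQ0 hQb lam' φ hφ hpos hS N ψ hψ hs
  rw [h1, mul_one] at hfact
  -- the core estimate
  have e1 : (∫ x : Cfg N, (∑ i, UU (b1 W) (b2 V) (ρ (x i))) * (wt φ x * ‖quo φ ψ x‖ ^ 2)) =
      ∫ x : Cfg N, (∑ i, UU (b1 W) (b2 V) (ρ (x i))) * ‖ψ x‖ ^ 2 := by
    simp only [quo_norm hpos]
  have e2 : (∫ x : Cfg N, wt φ x * ‖quo φ ψ x‖ ^ 2) = 1 := by
    simp only [quo_norm hpos]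
    exact h1
  have e3 : (∫ x : Cfg N, wt φ x * (kin (quo φ ψ) x + (pairS (Wn N W) x + tripS (Vn N V) x)
      * ‖quo φ ψ x‖ ^ 2)) = (∫ x : Cfg N, wt φ x * kin (quo φ ψ) x) +
      ((∫ x : Cfg N, pairS (Wn N W) x * ‖ψ x‖ ^ 2) + ∫ x : Cfg N, tripS (Vn N V) x * ‖ψ x‖ ^ 2) := by
    have icd : Integrable (fun x : Cfg N => pairS (Wn N W) x * ‖ψ x‖ ^ 2 +
        tripS (Vn N V) x * ‖ψ x‖ ^ 2) := ic.add id'
    have s1 : (∫ x : Cfg N, (pairS (Wn N W) x * ‖ψ x‖ ^ 2 + tripS (Vn N V) x * ‖ψ x‖ ^ 2)) =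
        (∫ x : Cfg N, pairS (Wn N W) x * ‖ψ x‖ ^ 2) + ∫ x : Cfg N, tripS (Vn N V) x * ‖ψ x‖ ^ 2 :=
      integral_add ic id'
    have s2 : (∫ x : Cfg N, (wt φ x * kin (quo φ ψ) x + (pairS (Wn N W) x * ‖ψ x‖ ^ 2 +
        tripS (Vn N V) x * ‖ψ x‖ ^ 2))) = (∫ x : Cfg N, wt φ x * kin (quo φ ψ) x) +
        ∫ x : Cfg N, (pairS (Wn N W) x * ‖ψ x‖ ^ 2 + tripS (Vn N V) x * ‖ψ x‖ ^ 2) :=
      integral_add ik icd
    rw [← s1, ← s2]
    refine integral_congr_ae (Filter.Eventually.of_forall fun x => ?_)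
    have h2 := quo_norm hpos ψ x
    show wt φ x * (kin (quo φ ψ) x + (pairS (Wn N W) x + tripS (Vn N V) x)
      * ‖quo φ ψ x‖ ^ 2) = wt φ x * kin (quo φ ψ) x + (pairS (Wn N W) x * ‖ψ x‖ ^ 2 +
        tripS (Vn N V) x * ‖ψ x‖ ^ 2)
    rw [← h2]
    ring
  rw [e1, e2, e3, mul_one] at hcore
  -- the energy
  have e4 : enN N Vext W V ψ = (∫ x, kin ψ x) + (∫ x : Cfg N, (∑ i, Vext (x i)) * ‖ψ x‖ ^ 2) +
      (∫ x : Cfg N, pairS (Wn N W) x * ‖ψ x‖ ^ 2) +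
      ∫ x : Cfg N, tripS (Vn N V) x * ‖ψ x‖ ^ 2 := by
    unfold enN
    have iab : Integrable (fun x : Cfg N => kin ψ x + (∑ i, Vext (x i)) * ‖ψ x‖ ^ 2) := ia.add ib
    have iabc : Integrable (fun x : Cfg N => kin ψ x + (∑ i, Vext (x i)) * ‖ψ x‖ ^ 2 +
        pairS (Wn N W) x * ‖ψ x‖ ^ 2) := iab.add ic
    have s1 : (∫ x : Cfg N, (kin ψ x + (∑ i, Vext (x i)) * ‖ψ x‖ ^ 2)) = (∫ x, kin ψ x) +
        ∫ x : Cfg N, (∑ i, Vext (x i)) * ‖ψ x‖ ^ 2 := integral_add ia ib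
    have s2 : (∫ x : Cfg N, (kin ψ x + (∑ i, Vext (x i)) * ‖ψ x‖ ^ 2 +
        pairS (Wn N W) x * ‖ψ x‖ ^ 2)) =
        (∫ x : Cfg N, (kin ψ x + (∑ i, Vext (x i)) * ‖ψ x‖ ^ 2)) +
        ∫ x : Cfg N, pairS (Wn N W) x * ‖ψ x‖ ^ 2 := integral_add iab ic
    rw [← s1, ← s2]
    exact integral_add iabc id'
  have e5 : (∫ x : Cfg N, (kin ψ x + (∑ i, (min (Vext (x i)) Λ +
      UU (b1 W) (b2 V) (ρ (x i)))) * ‖ψ x‖ ^ 2)) = (∫ x, kin ψ x) +
      ∫ x : Cfg N, (∑ i, (min (Vext (x i)) Λ + UU (b1 W) (b2 V) (ρ (x i)))) * ‖ψ x‖ ^ 2 :=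
    integral_add ia iq
  have e6 : (∫ x : Cfg N, (∑ i, (min (Vext (x i)) Λ + UU (b1 W) (b2 V) (ρ (x i))))
      * ‖ψ x‖ ^ 2) - (∫ x : Cfg N, (∑ i, UU (b1 W) (b2 V) (ρ (x i))) * ‖ψ x‖ ^ 2) ≤
      ∫ x : Cfg N, (∑ i, Vext (x i)) * ‖ψ x‖ ^ 2 := by
    rw [← integral_sub iq ir]
    refine integral_mono (iq.sub ir) ib fun x => ?_
    show (∑ i, (min (Vext (x i)) Λ + UU (b1 W) (b2 V) (ρ (x i)))) * ‖ψ x‖ ^ 2 -
      (∑ i, UU (b1 W) (b2 V) (ρ (x i))) * ‖ψ x‖ ^ 2 ≤ (∑ i, Vext (x i)) * ‖ψ x‖ ^ 2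
    rw [← sub_mul, Finset.sum_add_distrib, add_sub_cancel_right]
    exact mul_le_mul_of_nonneg_right (Finset.sum_le_sum fun i _ => min_le_left _ _)
      (by positivity)
  rw [e4]
  have hfact' : (N : ℝ) * lam' + (∫ x : Cfg N, wt φ x * kin (quo φ ψ) x) ≤ (∫ x, kin ψ x) +
      ∫ x : Cfg N, (∑ i, (min (Vext (x i)) Λ + UU (b1 W) (b2 V) (ρ (x i)))) * ‖ψ x‖ ^ 2 := by
    rw [← e5]
    exact hfact
  have e7 : (N : ℝ) * (lam' - (I + e')) = (N : ℝ) * lam' - (N : ℝ) * (I + e') := by ring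
  rw [e7]
  linarith

theorem low : S_CERT → S_TRUNC → S_JP → S_FACT → S_CORE → S_LOW := by
  intro hCERT hTRUNC hJP hFACT hCORE Vext W V hE hW hV ε hε
  have hβ := b1_nonneg hW
  have hγ := b2_nonneg hV
  have he : 0 < ε / 5 := by positivity
  obtain ⟨ρ, hρc, hρs, hρ0, hform⟩ := hCERT Vext hE _ _ hβ hγ (ε / 5) he
  have hRc : Continuous fun x => UU (b1 W) (b2 V) (ρ x) := UU_cont hρc
  have hRs : HasCompactSupport fun x => UU (b1 W) (b2 V) (ρ x) := UU_supp hρs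
  have hR0 : ∀ x, 0 ≤ UU (b1 W) (b2 V) (ρ x) := fun x => UU_nonneg hβ hγ (hρ0 x)
  obtain ⟨Λ, hΛ, hform2⟩ := hTRUNC Vext hE _ hRc hRs hR0 _ hform (ε / 5) he
  have hV0 : ∀ x, 0 ≤ Vext x := by
    obtain ⟨C, α, hC, _, hlow⟩ := hE.low
    intro x
    exact le_trans (by positivity) (hlow x)
  have hQ0 : ∀ x, 0 ≤ min (Vext x) Λ + UU (b1 W) (b2 V) (ρ x) := fun x =>
    add_nonneg (le_min (hV0 x) hΛ) (hR0 x)
  have hQb : ∃ M : ℝ, ∀ x, min (Vext x) Λ + UU (b1 W) (b2 V) (ρ x) ≤ M := by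
    obtain ⟨M, hM⟩ := hRs.exists_bound_of_continuous hRc
    refine ⟨Λ + M, fun x => add_le_add (min_le_right _ _) ?_⟩
    exact (le_abs_self _).trans (hM x)
  have hQm : Measurable fun x => min (Vext x) Λ + UU (b1 W) (b2 V) (ρ x) :=
    (hE.meas.min measurable_const).add hRc.measurable
  obtain ⟨φ, hφ, hpos, hS⟩ := hJP _ hQm hQ0 hQb _
    (gpE Vext (b1 W) (b2 V) + (∫ x, dd (b1 W) (b2 V) (ρ x)) - ε / 5 - ε / 5 - ε / 5)
    (by linarith) hform2
  filter_upwards [hCORE W V hW hV φ hφ.continuous hpos ρ hρc hρs hρ0 (ε / 5) he,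
    eventually_ge_atTop 1] with N hN hN1
  have hN0 : (0 : ℝ) < N := by exact_mod_cast hN1
  rw [le_div_iff₀ hN0]
  unfold EN
  refine le_csInf ?_ ?_
  · obtain ⟨ψ, p1, p2, p3, p4⟩ := exists_comp N
    exact ⟨_, ψ, p1, p2, p3, p4, rfl⟩
  · rintro _ ⟨ψ, p1, p2, -, p4, rfl⟩
    have hψ1 : ContDiff ℝ 1 ψ := p1.of_le (by exact_mod_cast le_top)
    have hF : ContDiff ℝ 1 (quo φ ψ) := quo_diff hφ hpos hψ1
    have hFs : HasCompactSupport (quo φ ψ) := quo_supp p2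
    have h := step hFACT hE hW hV hρc hφ hpos hQ0 hQb hS hψ1 p2 p4
      (hN (quo φ ψ) hF hFs)
    refine le_trans ?_ h
    rw [mul_comm]
    refine mul_le_mul_of_nonneg_left ?_ hN0.le
    linarith

end Pool.Agent.W381.TWB
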